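import Mathlib

/-!
# A functional equation on the sphere

If `f` is continuous and `f a + f b + f c = 0` for all unit vectors with `a + b + c = 0` of a
three-dimensional space, then `f` is linear on the unit sphere.
-/

set_option autoImplicit false

namespace Pool.Agent.N555.Rotor

open Real Module
open scoped RealInnerProductSpace

variable {E : Type*} [NormedAddCommGroup E] [InnerProductSpace ℝ E]

/-- the hypothesis -/
def Tri (f : E → ℝ) : Prop :=
  ∀ a b c : E, ‖a‖ = 1 → ‖b‖ = 1 → ‖c‖ = 1 → a + b + c = 0 → f a + f b + f c = 0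

/-- three orthonormal vectors -/
structure Fr (p q n : E) : Prop where
  p1 : ‖p‖ = 1
  q1 : ‖q‖ = 1
  n1 : ‖n‖ = 1
  pq : ⟪p, q⟫ = 0
  pn : ⟪p, n⟫ = 0
  qn : ⟪q, n⟫ = 0

theorem exists_unit_orth [FiniteDimensional ℝ E] (hd : finrank ℝ E = 3) (x y : E) :
    ∃ n : E, ‖n‖ = 1 ∧ ⟪x, n⟫ = 0 ∧ ⟪y, n⟫ = 0 := by
  set K : Submodule ℝ E := Submodule.span ℝ {x, y} with hK
  have h1 : finrank ℝ K ≤ 2 := by
    classical
    have h2 := finrank_span_finset_le_card (R := ℝ) ({x, y} : Finset E)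
    rw [Finset.coe_pair] at h2
    exact h2.trans Finset.card_le_two
  have h2 := Submodule.finrank_add_finrank_orthogonal K
  have h3 : 0 < finrank ℝ Kᗮ := by omega
  have h4 : Nontrivial Kᗮ := Module.nontrivial_of_finrank_pos h3
  obtain ⟨⟨v, hv⟩, hv0⟩ := exists_ne (0 : Kᗮ)
  have hv0' : v ≠ 0 := fun h => hv0 (by ext; exact h)
  have hx : ⟪x, v⟫ = 0 := hv x (Submodule.subset_span (by simp))
  have hy : ⟪y, v⟫ = 0 := hv y (Submodule.subset_span (by simp))
  refine ⟨‖v‖⁻¹ • v, ?_, ?_, ?_⟩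
  · rw [norm_smul, norm_inv, norm_norm, inv_mul_cancel₀ (norm_ne_zero_iff.mpr hv0')]
  · rw [inner_smul_right, hx, mul_zero]
  · rw [inner_smul_right, hy, mul_zero]

theorem Fr.normsq {p q n : E} (h : Fr p q n) (α β γ : ℝ) :
    ‖α • p + β • q + γ • n‖ ^ 2 = α ^ 2 + β ^ 2 + γ ^ 2 := by
  obtain ⟨hp, hq, hn, hpq, hpn, hqn⟩ := h
  have hqp : ⟪q, p⟫ = 0 := by rw [real_inner_comm]; exact hpq
  have hnp : ⟪n, p⟫ = 0 := by rw [real_inner_comm]; exact hpn
  have hnq : ⟪n, q⟫ = 0 := by rw [real_inner_comm]; exact hqn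
  have hpp : ⟪p, p⟫ = 1 := by rw [real_inner_self_eq_norm_sq, hp]; norm_num
  have hqq : ⟪q, q⟫ = 1 := by rw [real_inner_self_eq_norm_sq, hq]; norm_num
  have hnn : ⟪n, n⟫ = 1 := by rw [real_inner_self_eq_norm_sq, hn]; norm_num
  rw [← real_inner_self_eq_norm_sq]
  simp only [inner_add_left, inner_add_right, inner_smul_left, inner_smul_right, hpq, hpn, hqn, hqp,
    hnp, hnq, hpp, hqq, hnn, RCLike.conj_to_real]
  ring

theorem Fr.unit {p q n : E} (h : Fr p q n) {α β γ : ℝ} (h1 : α ^ 2 + β ^ 2 + γ ^ 2 = 1) :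
    ‖α • p + β • q + γ • n‖ = 1 := by
  have := h.normsq α β γ
  rw [h1] at this
  have h0 := norm_nonneg (α • p + β • q + γ • n)
  nlinarith

/-- the even part takes the same value at orthogonal unit vectors -/
theorem even_orth {f : E → ℝ} (hf : Tri f) {u w e : E} (h : Fr u w e) :
    f u + f (-u) = f w + f (-w) := by
  set k : ℝ := (√2)⁻¹ with hk
  have hk2 : k ^ 2 = 1 / 2 := by
    rw [hk, inv_pow, Real.sq_sqrt (by norm_num)]; norm_num
  let a : ℝ → ℝ → ℝ → E := fun x y z => (x / 2) • u + (y / 2) • w + (z * k) • e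
  have ha : ∀ x y z : ℝ, x ^ 2 = 1 → y ^ 2 = 1 → z ^ 2 = 1 → ‖a x y z‖ = 1 := by
    intro x y z hx hy hz
    apply h.unit
    rw [div_pow, div_pow, mul_pow, hx, hy, hz, hk2]
    norm_num
  have hu := h.p1
  have hw := h.q1
  have hu' : ‖-u‖ = 1 := by rw [norm_neg]; exact hu
  have hw' : ‖-w‖ = 1 := by rw [norm_neg]; exact hw
  have e1 := hf u (a (-1) 1 1) (a (-1) (-1) (-1)) hu (ha _ _ _ (by norm_num) (by norm_num)
    (by norm_num)) (ha _ _ _ (by norm_num) (by norm_num) (by norm_num)) (by simp only [a]; module)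
  have e2 := hf u (a (-1) 1 (-1)) (a (-1) (-1) 1) hu (ha _ _ _ (by norm_num) (by norm_num)
    (by norm_num)) (ha _ _ _ (by norm_num) (by norm_num) (by norm_num)) (by simp only [a]; module)
  have e3 := hf (-u) (a 1 1 1) (a 1 (-1) (-1)) hu' (ha _ _ _ (by norm_num) (by norm_num)
    (by norm_num)) (ha _ _ _ (by norm_num) (by norm_num) (by norm_num)) (by simp only [a]; module)
  have e4 := hf (-u) (a 1 1 (-1)) (a 1 (-1) 1) hu' (ha _ _ _ (by norm_num) (by norm_num)
    (by norm_num)) (ha _ _ _ (by norm_num) (by norm_num) (by norm_num)) (by simp only [a]; module)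
  have e5 := hf w (a 1 (-1) 1) (a (-1) (-1) (-1)) hw (ha _ _ _ (by norm_num) (by norm_num)
    (by norm_num)) (ha _ _ _ (by norm_num) (by norm_num) (by norm_num)) (by simp only [a]; module)
  have e6 := hf w (a 1 (-1) (-1)) (a (-1) (-1) 1) hw (ha _ _ _ (by norm_num) (by norm_num)
    (by norm_num)) (ha _ _ _ (by norm_num) (by norm_num) (by norm_num)) (by simp only [a]; module)
  have e7 := hf (-w) (a 1 1 1) (a (-1) 1 (-1)) hw' (ha _ _ _ (by norm_num) (by norm_num)
    (by norm_num)) (ha _ _ _ (by norm_num) (by norm_num) (by norm_num)) (by simp only [a]; module)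
  have e8 := hf (-w) (a 1 1 (-1)) (a (-1) 1 1) hw' (ha _ _ _ (by norm_num) (by norm_num)
    (by norm_num)) (ha _ _ _ (by norm_num) (by norm_num) (by norm_num)) (by simp only [a]; module)
  linarith

theorem exists_frame [FiniteDimensional ℝ E] (hd : finrank ℝ E = 3) {p q : E} (hp : ‖p‖ = 1)
    (hq : ‖q‖ = 1) (hpq : ⟪p, q⟫ = 0) : ∃ n, Fr p q n := by
  obtain ⟨n, h1, h2, h3⟩ := exists_unit_orth hd p q
  exact ⟨n, hp, hq, h1, hpq, h2, h3⟩

theorem odd [FiniteDimensional ℝ E] (hd : finrank ℝ E = 3) {f : E → ℝ} (hf : Tri f) {v : E}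
    (hv : ‖v‖ = 1) : f (-v) = - f v := by
  have key : ∀ v v' : E, ‖v‖ = 1 → ‖v'‖ = 1 → f v + f (-v) = f v' + f (-v') := by
    intro v v' hv hv'
    obtain ⟨n, hn1, hn2, hn3⟩ := exists_unit_orth hd v v'
    obtain ⟨e, he⟩ := exists_frame hd hv hn1 hn2
    obtain ⟨e', he'⟩ := exists_frame hd hv' hn1 hn3
    rw [even_orth hf he, even_orth hf he']
  obtain ⟨n, hn1, hn2, -⟩ := exists_unit_orth hd v v
  obtain ⟨e, he⟩ := exists_frame hd hv hn1 hn2
  have hs : (√3 / 2) ^ 2 = 3 / 4 := by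
    rw [div_pow, Real.sq_sqrt (by norm_num)]; norm_num
  have hs' : (-(√3 / 2)) ^ 2 = 3 / 4 := by rw [neg_sq]; exact hs
  set b : E := (-1 / 2 : ℝ) • v + (√3 / 2) • n + (0 : ℝ) • e with hb
  set c : E := (-1 / 2 : ℝ) • v + (-(√3 / 2)) • n + (0 : ℝ) • e with hc
  have hb1 : ‖b‖ = 1 := he.unit (by rw [hs]; norm_num)
  have hc1 : ‖c‖ = 1 := he.unit (by rw [hs']; norm_num)
  have e1 := hf v b c hv hb1 hc1 (by rw [hb, hc]; module)
  have e2 := hf (-v) (-b) (-c) (by rwa [norm_neg]) (by rwa [norm_neg]) (by rwa [norm_neg])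
    (by rw [hb, hc]; module)
  have k1 := key v b hv hb1
  have k2 := key v c hv hc1
  linarith

/-- the sum of the values at two unit vectors symmetric about `p` -/
noncomputable def Gam (f : E → ℝ) (p q n : E) (ρ φ : ℝ) : ℝ :=
  f (√(1 - ρ ^ 2) • p + (ρ * cos φ) • q + (ρ * sin φ) • n) +
    f (√(1 - ρ ^ 2) • p + (-(ρ * cos φ)) • q + (-(ρ * sin φ)) • n)

theorem move [FiniteDimensional ℝ E] (hd : finrank ℝ E = 3) {f : E → ℝ} (hf : Tri f) {p q n : E}
    (h : Fr p q n) {ρ τ : ℝ} (hρ : ρ ^ 2 ≤ 1) (hτ : 2 * ρ * sin (τ / 2) = 1) (φ : ℝ) :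
    Gam f p q n ρ φ = Gam f p q n ρ (φ + τ) := by
  set s : ℝ := √(1 - ρ ^ 2) with hs
  have hs2 : s ^ 2 = 1 - ρ ^ 2 := Real.sq_sqrt (by linarith)
  set ψ : ℝ := φ + τ / 2 with hψ
  have hτ2 : τ / 2 = ψ - φ := by rw [hψ]; ring
  have hφτ : φ + τ = ψ + (ψ - φ) := by rw [hψ]; ring
  rw [hτ2, sin_sub] at hτ
  have c1 := sin_sq_add_cos_sq φ
  have c2 := sin_sq_add_cos_sq ψ
  -- the new coordinates
  have hcos : ρ * cos (φ + τ) = ρ * cos φ - sin ψ := by
    rw [hφτ, cos_add, cos_sub, sin_sub]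
    have : ρ * (cos ψ * (cos ψ * cos φ + sin ψ * sin φ) -
        sin ψ * (sin ψ * cos φ - cos ψ * sin φ)) =
        ρ * cos φ * (sin ψ ^ 2 + cos ψ ^ 2) -
          (2 * ρ * (sin ψ * cos φ - cos ψ * sin φ)) * sin ψ := by ring
    rw [this, c2, hτ]; ring
  have hsin : ρ * sin (φ + τ) = ρ * sin φ + cos ψ := by
    rw [hφτ, sin_add, cos_sub, sin_sub]
    have : ρ * (sin ψ * (cos ψ * cos φ + sin ψ * sin φ) +
        cos ψ * (sin ψ * cos φ - cos ψ * sin φ)) =
        ρ * sin φ * (sin ψ ^ 2 + cos ψ ^ 2) +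
          (2 * ρ * (sin ψ * cos φ - cos ψ * sin φ)) * cos ψ := by ring
    rw [this, c2, hτ]; ring
  unfold Gam
  rw [← hs, hcos, hsin]
  set a : E := s • p + (ρ * cos φ) • q + (ρ * sin φ) • n with ha
  set b : E := s • p + (-(ρ * cos φ)) • q + (-(ρ * sin φ)) • n with hb
  set c : E := (0 : ℝ) • p + (sin ψ) • q + (-cos ψ) • n with hc
  have ha1 : ‖a‖ = 1 := h.unit (by rw [hs2]; nlinarith)
  have hb1 : ‖b‖ = 1 := h.unit (by rw [hs2]; nlinarith)
  have hc1 : ‖c‖ = 1 := h.unit (by nlinarith)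
  have hac : s • p + (ρ * cos φ - sin ψ) • q + (ρ * sin φ + cos ψ) • n = a - c := by
    rw [ha, hc]; module
  have hbc : s • p + (-(ρ * cos φ - sin ψ)) • q + (-(ρ * sin φ + cos ψ)) • n = b + c := by
    rw [hb, hc]; module
  have hac1 : ‖a - c‖ = 1 := by
    rw [← hac]
    exact h.unit (by rw [hs2]; nlinarith)
  have hbc1 : ‖b + c‖ = 1 := by
    rw [← hbc]
    exact h.unit (by rw [hs2]; nlinarith)
  rw [hac, hbc]
  have e1 := hf a (-(a - c)) (-c) ha1 (by rwa [norm_neg]) (by rwa [norm_neg]) (by module)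
  have e2 := hf b (-(b + c)) c hb1 (by rwa [norm_neg]) hc1 (by module)
  rw [odd hd hf hac1, odd hd hf hc1] at e1
  rw [odd hd hf hbc1] at e2
  linarith

theorem gam_cont {f : E → ℝ} (hc : Continuous f) (p q n : E) (ρ : ℝ) :
    Continuous (Gam f p q n ρ) := by
  unfold Gam
  fun_prop

theorem gam_period (f : E → ℝ) (p q n : E) (ρ φ : ℝ) :
    Gam f p q n ρ (φ + 2 * π) = Gam f p q n ρ φ := by
  unfold Gam
  rw [cos_add_two_pi, sin_add_two_pi]

theorem const_irr [FiniteDimensional ℝ E] (hd : finrank ℝ E = 3) {f : E → ℝ} (hf : Tri f)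
    (hc : Continuous f) {p q n : E} (h : Fr p q n) {ρ τ : ℝ} (hρ : ρ ^ 2 ≤ 1)
    (hτ : 2 * ρ * sin (τ / 2) = 1) (hirr : Irrational (τ / (2 * π))) (φ : ℝ) :
    Gam f p q n ρ φ = Gam f p q n ρ 0 := by
  let H : AddSubgroup ℝ :=
    { carrier := {x | ∀ φ, Gam f p q n ρ (φ + x) = Gam f p q n ρ φ}
      add_mem' := by
        intro x y hx hy φ
        rw [← add_assoc, hy, hx]
      zero_mem' := by
        intro φ
        rw [add_zero]
      neg_mem' := by
        intro x hx φ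
        have := hx (φ + -x)
        rw [neg_add_cancel_right] at this
        exact this.symm }
  have h1 : τ ∈ H := fun φ => (move hd hf h hρ hτ φ).symm
  have h2 : 2 * π ∈ H := fun φ => gam_period f p q n ρ φ
  have h3 : AddSubgroup.closure {τ, 2 * π} ≤ H := by
    rw [AddSubgroup.closure_le]
    rintro x (rfl | rfl)
    · exact h1
    · exact h2
  have hdense : Dense (H : Set ℝ) := (dense_addSubgroupClosure_pair_iff.mpr hirr).mono h3
  have hclosed : IsClosed {x : ℝ | Gam f p q n ρ x = Gam f p q n ρ 0} :=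
    isClosed_eq (gam_cont hc p q n ρ) continuous_const
  have hsub : (H : Set ℝ) ⊆ {x : ℝ | Gam f p q n ρ x = Gam f p q n ρ 0} := by
    intro x hx
    have := hx 0
    rw [zero_add] at this
    exact this
  have h4 := hclosed.closure_subset_iff.mpr hsub
  rw [hdense.closure_eq] at h4
  exact h4 (Set.mem_univ φ)

theorem const_all [FiniteDimensional ℝ E] (hd : finrank ℝ E = 3) {f : E → ℝ} (hf : Tri f)
    (hc : Continuous f) {p q n : E} (h : Fr p q n) {ρ : ℝ} (hρ : 1 / 2 < ρ) (hρ1 : ρ < 1)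
    (φ : ℝ) : Gam f p q n ρ φ = Gam f p q n ρ 0 := by
  -- parametrize by `τ = 2 π x`
  have hpi := pi_pos
  have hsin : ∀ x ∈ Set.Ioo (1 / 6 : ℝ) (1 / 2), 1 / 2 < sin (π * x) ∧ sin (π * x) < 1 := by
    intro x hx
    constructor
    · rw [← sin_pi_div_six]
      apply sin_lt_sin_of_lt_of_le_pi_div_two
      · linarith
      · nlinarith [hx.2]
      · nlinarith [hx.1]
    · rw [← sin_pi_div_two]
      apply sin_lt_sin_of_lt_of_le_pi_div_two
      · nlinarith [hx.1]
      · exact le_rfl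
      · nlinarith [hx.2]
  let r : ℝ → ℝ := fun x => (2 * sin (π * x))⁻¹
  have hrcont : ContinuousOn r (Set.Ioo (1 / 6 : ℝ) (1 / 2)) := by
    apply ContinuousOn.inv₀
    · fun_prop
    · intro x hx
      have := (hsin x hx).1
      positivity
  have hgc : ∀ ψ : ℝ, ContinuousOn (fun x => Gam f p q n (r x) ψ) (Set.Ioo (1 / 6 : ℝ) (1 / 2)) := by
    intro ψ
    have : Continuous fun ρ : ℝ => Gam f p q n ρ ψ := by
      unfold Gam
      fun_prop
    exact this.comp_continuousOn hrcont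
  have hEq : Set.EqOn (fun x => Gam f p q n (r x) φ) (fun x => Gam f p q n (r x) 0)
      (Set.Ioo (1 / 6 : ℝ) (1 / 2) ∩ {x | Irrational x}) := by
    rintro x ⟨hx, hxi⟩
    obtain ⟨s1, s2⟩ := hsin x hx
    have hs0 : 0 < sin (π * x) := by linarith
    have hr : 2 * r x * sin (2 * π * x / 2) = 1 := by
      have e : 2 * π * x / 2 = π * x := by ring
      rw [e]
      simp only [r]
      field_simp
    have hr1 : r x ^ 2 ≤ 1 := by
      have h1 : r x ≤ 1 := by
        apply inv_le_one_of_one_le₀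
        linarith
      have h2 : 0 ≤ r x := by positivity
      exact pow_le_one₀ h2 h1
    have hi : Irrational (2 * π * x / (2 * π)) := by
      have e : 2 * π * x / (2 * π) = x := by field_simp
      rw [e]
      exact hxi
    exact const_irr hd hf hc h hr1 hr hi φ
  have hall := hEq.of_subset_closure (hgc φ) (hgc 0) Set.inter_subset_left
    (dense_irrational.open_subset_closure_inter isOpen_Ioo)
  -- the parameter of `ρ`
  have hρ0 : 0 < ρ := by linarith
  set x₀ : ℝ := arcsin ((2 * ρ)⁻¹) / π with hx₀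
  have hle : (2 * ρ)⁻¹ < 1 := inv_lt_one_of_one_lt₀ (by linarith)
  have hge : 1 / 2 < (2 * ρ)⁻¹ := by
    rw [← one_div, div_lt_div_iff₀ (by norm_num) (by positivity)]
    linarith
  have hsx : sin (π * x₀) = (2 * ρ)⁻¹ := by
    have e : π * x₀ = arcsin ((2 * ρ)⁻¹) := by
      rw [hx₀]; field_simp
    rw [e]
    exact sin_arcsin (by linarith) hle.le
  have hxm : x₀ ∈ Set.Ioo (1 / 6 : ℝ) (1 / 2) := by
    constructor
    · rw [hx₀, lt_div_iff₀ hpi]
      have h1 : 1 / 6 * π = arcsin (1 / 2) := by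
        rw [← sin_pi_div_six, arcsin_sin (by linarith) (by linarith)]
        ring
      rw [h1]
      exact strictMonoOn_arcsin ⟨by norm_num, by norm_num⟩ ⟨by linarith, hle.le⟩ hge
    · rw [hx₀, div_lt_iff₀ hpi]
      have h1 : 1 / 2 * π = arcsin 1 := by
        rw [arcsin_one]
        ring
      rw [h1]
      exact strictMonoOn_arcsin ⟨by linarith, hle.le⟩ ⟨by norm_num, by norm_num⟩ hle
  have hfin := hall hxm
  have hrx : r x₀ = ρ := by
    simp only [r]
    rw [hsx]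
    field_simp
  simp only [hrx] at hfin
  exact hfin

/-- a unit vector orthogonal to the first vector of a frame -/
theorem repr2 [FiniteDimensional ℝ E] (hd : finrank ℝ E = 3) {p q n q' : E} (h : Fr p q n)
    (hq' : ‖q'‖ = 1) (hp : ⟪p, q'⟫ = 0) : ∃ θ : ℝ, q' = cos θ • q + sin θ • n := by
  obtain ⟨hp1, hq1, hn1, hpq, hpn, hqn⟩ := h
  have hqp : ⟪q, p⟫ = 0 := by rw [real_inner_comm]; exact hpq
  have hnp : ⟪n, p⟫ = 0 := by rw [real_inner_comm]; exact hpn
  have hnq : ⟪n, q⟫ = 0 := by rw [real_inner_comm]; exact hqn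
  have hon : Orthonormal ℝ ![p, q, n] := by
    constructor
    · intro i
      fin_cases i
      · exact hp1
      · exact hq1
      · exact hn1
    · intro i j hij
      fin_cases i <;> fin_cases j <;> first | exact absurd rfl hij | assumption
  have hspan : ⊤ ≤ Submodule.span ℝ (Set.range ![p, q, n]) := by
    rw [hon.linearIndependent.span_eq_top_of_card_eq_finrank (by rw [Fintype.card_fin, hd])]
  let b := OrthonormalBasis.mk hon hspan
  have hb : ∀ i, b i = ![p, q, n] i := fun i => by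
    simp [b]
  have hsum := b.sum_repr' q'
  rw [Fin.sum_univ_three, hb, hb, hb] at hsum
  have e0 : ![p, q, n] 0 = p := rfl
  have e1 : ![p, q, n] 1 = q := rfl
  have e2 : ![p, q, n] 2 = n := rfl
  rw [e0, e1, e2, hp, zero_smul, zero_add] at hsum
  set x := ⟪q, q'⟫ with hx
  set y := ⟪n, q'⟫ with hy
  have hnorm : x ^ 2 + y ^ 2 = 1 := by
    have h1 := (Fr.mk hp1 hq1 hn1 hpq hpn hqn).normsq 0 x y
    rw [zero_smul, zero_add, hsum, hq'] at h1
    linarith
  set z : ℂ := ⟨x, y⟩ with hz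
  have hz1 : ‖z‖ = 1 := by
    rw [Complex.norm_def, Complex.normSq_apply]
    have : z.re * z.re + z.im * z.im = 1 := by
      simp only [hz]
      linarith
    rw [this, Real.sqrt_one]
  refine ⟨z.arg, ?_⟩
  have h1 := Complex.norm_mul_cos_arg z
  have h2 := Complex.norm_mul_sin_arg z
  rw [hz1, one_mul] at h1 h2
  rw [h1, h2]
  exact hsum.symm

end Pool.Agent.N555.Rotor
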