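import Pool.Agent.N555.Rotor.FE

/-!
# A functional equation on the sphere, part 2: linearity
-/

set_option autoImplicit false

namespace Pool.Agent.N555.Rotor

open Real Module
open scoped RealInnerProductSpace

/-- bounded additive functions on `[0, 1]` are linear -/
theorem homog {φ : ℝ → ℝ} {B : ℝ} (hadd : ∀ s t, 0 ≤ s → 0 ≤ t → s + t ≤ 1 → φ (s + t) = φ s + φ t)
    (hB : ∀ s, 0 ≤ s → s ≤ 1 → |φ s| ≤ B) {s : ℝ} (hs0 : 0 ≤ s) (hs1 : s ≤ 1) :
    φ s = s * φ 1 := by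
  have hφ0 : φ 0 = 0 := by
    have := hadd 0 0 le_rfl le_rfl (by norm_num)
    rw [add_zero] at this
    linarith
  have hmul : ∀ (k : ℕ) (t : ℝ), 0 ≤ t → k * t ≤ 1 → φ (k * t) = k * φ t := by
    intro k
    induction k with
    | zero => intro t _ _; simp [hφ0]
    | succ k ih =>
      intro t ht hkt
      push_cast at hkt ⊢
      have h1 : (k : ℝ) * t ≤ 1 := by nlinarith
      have h2 := hadd (k * t) t (by positivity) ht (by linarith)
      have e : ((k : ℝ) + 1) * t = k * t + t := by ring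
      rw [e, h2, ih t ht h1]
      ring
  have hB0 : 0 ≤ B := (abs_nonneg _).trans (hB 0 le_rfl zero_le_one)
  have key : ∀ n : ℕ, 0 < n → |φ s - s * φ 1| ≤ 2 * B / n := by
    intro n hn
    have hn' : (0 : ℝ) < n := by exact_mod_cast hn
    set k : ℕ := ⌊n * s⌋₊ with hk
    have h1 : (k : ℝ) ≤ n * s := Nat.floor_le (by positivity)
    have h2 : n * s < k + 1 := Nat.lt_floor_add_one _
    set δ : ℝ := s - k / n with hδ
    have hδ0 : 0 ≤ δ := by
      rw [hδ, sub_nonneg, div_le_iff₀ hn']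
      linarith
    have hδ1 : n * δ ≤ 1 := by
      have : n * δ = n * s - k := by
        rw [hδ]; field_simp
      linarith
    have hkn : (k : ℝ) * (1 / n) ≤ 1 := by
      rw [mul_one_div, div_le_one hn']
      nlinarith
    have e1 : φ (k * (1 / n)) = k * φ (1 / n) := hmul k _ (by positivity) hkn
    have e2 : φ 1 = n * φ (1 / n) := by
      have := hmul n (1 / n) (by positivity) (by rw [mul_one_div, div_self hn'.ne'])
      rwa [mul_one_div, div_self hn'.ne'] at this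
    have e3 : φ (n * δ) = n * φ δ := hmul n δ hδ0 hδ1
    have e4 : φ s = φ (k * (1 / n)) + φ δ := by
      have h3 : s = k * (1 / n) + δ := by rw [hδ]; ring
      have h4 := hadd (k * (1 / n)) δ (by positivity) hδ0 (by rw [← h3]; exact hs1)
      rwa [← h3] at h4
    have hb1 : |φ δ| ≤ B / n := by
      have h3 := hB (n * δ) (by positivity) hδ1
      rw [e3, abs_mul, abs_of_pos hn'] at h3
      rwa [le_div_iff₀ hn', mul_comm]
    have hb2 : |φ 1| ≤ B := hB 1 zero_le_one le_rfl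
    have e5 : φ s - s * φ 1 = -(δ * φ 1) + φ δ := by
      rw [e4, e1, hδ]
      have : φ (1 / n) = φ 1 / n := by rw [e2]; field_simp
      rw [this]
      ring
    rw [e5]
    have hδn : δ ≤ 1 / n := by
      rw [le_div_iff₀ hn', mul_comm]
      exact hδ1
    calc |-(δ * φ 1) + φ δ| ≤ |-(δ * φ 1)| + |φ δ| := abs_add_le _ _
      _ = δ * |φ 1| + |φ δ| := by rw [abs_neg, abs_mul, abs_of_nonneg hδ0]
      _ ≤ 1 / n * B + B / n := by gcongr
      _ = 2 * B / n := by ring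
  have hlim : |φ s - s * φ 1| ≤ 0 := by
    refine le_of_forall_pos_le_add fun ε hε => ?_
    obtain ⟨n, hn⟩ := exists_nat_gt (2 * B / ε)
    have hn0 : 0 < n := by
      have h1 : (0 : ℝ) ≤ 2 * B / ε := by positivity
      have : (0 : ℝ) < n := lt_of_le_of_lt h1 hn
      exact_mod_cast this
    have hn' : (0 : ℝ) < n := by exact_mod_cast hn0
    have h1 := key n hn0
    have h2 : 2 * B / n ≤ ε := by
      rw [div_le_iff₀ hn']
      rw [div_lt_iff₀ hε] at hn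
      linarith
    linarith
  have := abs_nonpos_iff.mp hlim
  linarith

variable {E : Type*} [NormedAddCommGroup E] [InnerProductSpace ℝ E]

theorem norm_unit_comb {x y n : E} (hxy : ⟪x, y⟫ = 0) (hxn : ⟪x, n⟫ = 0) (hyn : ⟪y, n⟫ = 0)
    (hn : ‖n‖ = 1) (α β γ : ℝ) :
    ‖α • x + β • y + γ • n‖ ^ 2 = α ^ 2 * ‖x‖ ^ 2 + β ^ 2 * ‖y‖ ^ 2 + γ ^ 2 := by
  have hqp : ⟪y, x⟫ = 0 := by rw [real_inner_comm]; exact hxy
  have hnp : ⟪n, x⟫ = 0 := by rw [real_inner_comm]; exact hxn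
  have hnq : ⟪n, y⟫ = 0 := by rw [real_inner_comm]; exact hyn
  have hnn : ⟪n, n⟫ = 1 := by rw [real_inner_self_eq_norm_sq, hn]; norm_num
  rw [← real_inner_self_eq_norm_sq, ← real_inner_self_eq_norm_sq, ← real_inner_self_eq_norm_sq]
  simp only [inner_add_left, inner_add_right, inner_smul_left, inner_smul_right, hxy, hxn, hyn, hqp,
    hnp, hnq, hnn, RCLike.conj_to_real]
  ring

theorem norm_one_of_sq {v : E} (h : ‖v‖ ^ 2 = 1) : ‖v‖ = 1 := by
  have h0 := norm_nonneg v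
  nlinarith

/-- the additive extension -/
noncomputable def Fe [FiniteDimensional ℝ E] (hd : finrank ℝ E = 3) (f : E → ℝ) (x : E) : ℝ :=
  f ((1 / 2 : ℝ) • x + √(1 - ‖x‖ ^ 2 / 4) • (exists_unit_orth hd x x).choose) +
    f ((1 / 2 : ℝ) • x + (-√(1 - ‖x‖ ^ 2 / 4)) • (exists_unit_orth hd x x).choose)

theorem Fe_eq [FiniteDimensional ℝ E] (hd : finrank ℝ E = 3) {f : E → ℝ} (hf : Tri f)
    (hc : Continuous f) {x q' : E} (hx : ‖x‖ ≤ 1) (hq' : ‖q'‖ = 1) (hxq : ⟪x, q'⟫ = 0) :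
    Fe hd f x = f ((1 / 2 : ℝ) • x + √(1 - ‖x‖ ^ 2 / 4) • q') +
      f ((1 / 2 : ℝ) • x + (-√(1 - ‖x‖ ^ 2 / 4)) • q') := by
  unfold Fe
  obtain ⟨hq1, hq2, -⟩ := (exists_unit_orth hd x x).choose_spec
  set q := (exists_unit_orth hd x x).choose with hq
  by_cases hx0 : x = 0
  · subst hx0
    have e : √(1 - ‖(0 : E)‖ ^ 2 / 4) = 1 := by simp
    rw [e, smul_zero, zero_add, zero_add, zero_add, zero_add, one_smul, one_smul, neg_smul,
      neg_smul, one_smul, one_smul, odd hd hf hq1, odd hd hf hq']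
    ring
  have hxn : 0 < ‖x‖ := norm_pos_iff.mpr hx0
  set ρ : ℝ := √(1 - ‖x‖ ^ 2 / 4) with hρ
  have hρ2 : ρ ^ 2 = 1 - ‖x‖ ^ 2 / 4 := Real.sq_sqrt (by nlinarith)
  have hρ0 : 0 ≤ ρ := Real.sqrt_nonneg _
  have hρ1 : ρ < 1 := by nlinarith
  have hρh : 1 / 2 < ρ := by nlinarith
  set p : E := ‖x‖⁻¹ • x with hp
  have hp1 : ‖p‖ = 1 := by
    rw [hp, norm_smul, norm_inv, norm_norm, inv_mul_cancel₀ hxn.ne']
  have hxp : x = ‖x‖ • p := by
    rw [hp, smul_smul, mul_inv_cancel₀ hxn.ne', one_smul]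
  have hpq : ⟪p, q⟫ = 0 := by rw [hp, inner_smul_left, hq2, mul_zero]
  have hpq' : ⟪p, q'⟫ = 0 := by rw [hp, inner_smul_left, hxq, mul_zero]
  obtain ⟨n, hn⟩ := exists_frame hd hp1 hq1 hpq
  obtain ⟨θ, hθ⟩ := repr2 hd hn hq' hpq'
  have h := const_all hd hf hc hn hρh hρ1 θ
  unfold Gam at h
  have hs : √(1 - ρ ^ 2) = ‖x‖ / 2 := by
    rw [hρ2]
    have : 1 - (1 - ‖x‖ ^ 2 / 4) = (‖x‖ / 2) ^ 2 := by ring
    rw [this, Real.sqrt_sq (by positivity)]
  have hxh : (1 / 2 : ℝ) • x = (‖x‖ / 2) • p := by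
    conv_lhs => rw [hxp]
    rw [smul_smul]
    congr 1
    ring
  rw [hs, ← hxh, cos_zero, sin_zero] at h
  have e1 : (1 / 2 : ℝ) • x + (ρ * cos θ) • q + (ρ * sin θ) • n = (1 / 2 : ℝ) • x + ρ • q' := by
    rw [hθ]; module
  have e2 : (1 / 2 : ℝ) • x + (-(ρ * cos θ)) • q + (-(ρ * sin θ)) • n =
      (1 / 2 : ℝ) • x + (-ρ) • q' := by
    rw [hθ]; module
  have e3 : (1 / 2 : ℝ) • x + (ρ * 1) • q + (ρ * 0) • n = (1 / 2 : ℝ) • x + ρ • q := by module
  have e4 : (1 / 2 : ℝ) • x + (-(ρ * 1)) • q + (-(ρ * 0)) • n = (1 / 2 : ℝ) • x + (-ρ) • q := by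
    module
  rw [e1, e2, e3, e4] at h
  exact h.symm

/-- the sum of the values at two unit vectors depends only on their sum -/
theorem Fe_pair [FiniteDimensional ℝ E] (hd : finrank ℝ E = 3) {f : E → ℝ} (hf : Tri f)
    (hc : Continuous f) {a b x : E} (ha : ‖a‖ = 1) (hb : ‖b‖ = 1) (hab : a + b = x)
    (hx : ‖x‖ ≤ 1) : Fe hd f x = f a + f b := by
  have haa : ⟪a, a⟫ = 1 := by rw [real_inner_self_eq_norm_sq, ha]; norm_num
  have hbb : ⟪b, b⟫ = 1 := by rw [real_inner_self_eq_norm_sq, hb]; norm_num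
  have hba : ⟪b, a⟫ = ⟪a, b⟫ := real_inner_comm _ _
  have hx2 : ‖x‖ ^ 2 = 2 + 2 * ⟪a, b⟫ := by
    rw [← hab, ← real_inner_self_eq_norm_sq]
    simp only [inner_add_left, inner_add_right, haa, hbb, hba]
    ring
  have hd2 : ‖a - b‖ ^ 2 = 4 - ‖x‖ ^ 2 := by
    rw [hx2, ← real_inner_self_eq_norm_sq]
    simp only [inner_sub_left, inner_sub_right, haa, hbb, hba]
    ring
  have hpos : 0 < ‖a - b‖ := by
    have h0 := norm_nonneg (a - b)
    have h1 : ‖x‖ ^ 2 ≤ 1 := by nlinarith [norm_nonneg x]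
    rcases h0.eq_or_lt with h | h
    · rw [← h] at hd2
      linarith
    · exact h
  set q : E := ‖a - b‖⁻¹ • (a - b) with hq
  have hq1 : ‖q‖ = 1 := by
    rw [hq, norm_smul, norm_inv, norm_norm, inv_mul_cancel₀ hpos.ne']
  have hxq : ⟪x, q⟫ = 0 := by
    rw [hq, inner_smul_right, ← hab]
    simp only [inner_add_left, inner_sub_right, haa, hbb, hba]
    ring
  have hs : √(1 - ‖x‖ ^ 2 / 4) = ‖a - b‖ / 2 := by
    have : 1 - ‖x‖ ^ 2 / 4 = (‖a - b‖ / 2) ^ 2 := by rw [div_pow, hd2]; ring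
    rw [this, Real.sqrt_sq (by positivity)]
  have hqs : (‖a - b‖ / 2) • q = (1 / 2 : ℝ) • (a - b) := by
    rw [hq, smul_smul]
    congr 1
    field_simp
  rw [Fe_eq hd hf hc hx hq1 hxq, hs, neg_smul, hqs, ← hab]
  congr 2
  · module
  · module

theorem Fe_neg [FiniteDimensional ℝ E] (hd : finrank ℝ E = 3) {f : E → ℝ} (hf : Tri f)
    (hc : Continuous f) {x : E} (hx : ‖x‖ ≤ 1) : Fe hd f (-x) = -Fe hd f x := by
  obtain ⟨n, hn1, hn2, -⟩ := exists_unit_orth hd x x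
  have hn3 : ⟪-x, n⟫ = 0 := by rw [inner_neg_left, hn2, neg_zero]
  set ρ : ℝ := √(1 - ‖x‖ ^ 2 / 4) with hρ
  have hρ2 : ρ ^ 2 = 1 - ‖x‖ ^ 2 / 4 := Real.sq_sqrt (by nlinarith [norm_nonneg x])
  have hx' : ‖-x‖ ≤ 1 := by rwa [norm_neg]
  have h1 : ∀ γ : ℝ, γ ^ 2 = ρ ^ 2 → ‖(1 / 2 : ℝ) • x + γ • n‖ = 1 := by
    intro γ hγ
    apply norm_one_of_sq
    have := norm_unit_comb (x := x) (y := 0) (n := n) (by simp) hn2 (by simp) hn1 (1 / 2) 0 γ
    rw [smul_zero, add_zero] at this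
    rw [this, hγ, hρ2]
    ring
  rw [Fe_eq hd hf hc hx hn1 hn2, Fe_eq hd hf hc hx' hn1 hn3, norm_neg, ← hρ]
  have e1 : (1 / 2 : ℝ) • (-x) + ρ • n = -((1 / 2 : ℝ) • x + (-ρ) • n) := by module
  have e2 : (1 / 2 : ℝ) • (-x) + (-ρ) • n = -((1 / 2 : ℝ) • x + ρ • n) := by module
  rw [e1, e2, odd hd hf (h1 ρ rfl), odd hd hf (h1 (-ρ) (by ring))]
  ring

theorem Fe_orth [FiniteDimensional ℝ E] (hd : finrank ℝ E = 3) {f : E → ℝ} (hf : Tri f)
    (hc : Continuous f) {x y : E} (hxy : ⟪x, y⟫ = 0) (h : ‖x‖ ^ 2 + ‖y‖ ^ 2 ≤ 1) :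
    Fe hd f (x + y) = Fe hd f x + Fe hd f y := by
  obtain ⟨n, hn1, hn2, hn3⟩ := exists_unit_orth hd x y
  have hx0 := norm_nonneg x
  have hy0 := norm_nonneg y
  have hx1 : ‖x‖ ≤ 1 := by nlinarith
  have hy1 : ‖y‖ ≤ 1 := by nlinarith
  set κ : ℝ := √(1 - (‖x‖ ^ 2 + ‖y‖ ^ 2) / 4) with hκ
  have hκ2 : κ ^ 2 = 1 - (‖x‖ ^ 2 + ‖y‖ ^ 2) / 4 := Real.sq_sqrt (by linarith)
  have hN := norm_unit_comb hxy hn2 hn3 hn1
  have hxy1 : ‖x + y‖ ≤ 1 := by
    have h1 := hN 1 1 0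
    rw [one_smul, one_smul, zero_smul, add_zero] at h1
    have := norm_nonneg (x + y)
    nlinarith
  set b : E := (1 / 2 : ℝ) • x + (-1 / 2 : ℝ) • y + κ • n with hb
  set a : E := (1 / 2 : ℝ) • x + (1 / 2 : ℝ) • y + (-κ) • n with ha
  set d : E := (1 / 2 : ℝ) • x + (1 / 2 : ℝ) • y + κ • n with hdd
  have hb1 : ‖b‖ = 1 := norm_one_of_sq (by rw [hb, hN, hκ2]; ring)
  have ha1 : ‖a‖ = 1 := norm_one_of_sq (by rw [ha, hN, neg_sq, hκ2]; ring)
  have hd1 : ‖d‖ = 1 := norm_one_of_sq (by rw [hdd, hN, hκ2]; ring)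
  rw [Fe_pair hd hf hc ha1 hb1 (by rw [ha, hb]; module) hx1,
    Fe_pair hd hf hc (a := -b) (b := d) (by rwa [norm_neg]) hd1 (by rw [hdd, hb]; module) hy1,
    Fe_pair hd hf hc ha1 hd1 (by rw [ha, hdd]; module) hxy1, odd hd hf hb1]
  ring

theorem Fe_ray [FiniteDimensional ℝ E] (hd : finrank ℝ E = 3) {f : E → ℝ} (hf : Tri f)
    (hc : Continuous f) {x : E} (hx : ‖x‖ = 1) {s t : ℝ} (hs : 0 ≤ s) (ht : 0 ≤ t)
    (hst : s + t ≤ 1) : Fe hd f ((s + t) • x) = Fe hd f (s • x) + Fe hd f (t • x) := by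
  obtain ⟨n, hn1, hn2, -⟩ := exists_unit_orth hd x x
  have hm : 0 ≤ s * t := mul_nonneg hs ht
  set r : ℝ := √(s * t) with hr
  have hr2 : r ^ 2 = s * t := Real.sq_sqrt hm
  have hxx : ⟪x, x⟫ = 1 := by rw [real_inner_self_eq_norm_sq, hx]; norm_num
  have hnn : ⟪n, n⟫ = 1 := by rw [real_inner_self_eq_norm_sq, hn1]; norm_num
  have hnx : ⟪n, x⟫ = 0 := by rw [real_inner_comm]; exact hn2
  have hN : ∀ α γ : ℝ, ‖α • x + γ • n‖ ^ 2 = α ^ 2 + γ ^ 2 := by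
    intro α γ
    have := norm_unit_comb (x := x) (y := 0) (n := n) (by simp) hn2 (by simp) hn1 α 0 γ
    rw [smul_zero, add_zero, hx] at this
    rw [this]
    ring
  have hnrm : ∀ (α : ℝ) (z : E), ‖z‖ = 1 → ‖α • z‖ ^ 2 = α ^ 2 := by
    intro α z hz
    rw [norm_smul, hz, mul_one, Real.norm_eq_abs, sq_abs]
  have hrs : s ^ 2 + r ^ 2 ≤ 1 := by rw [hr2]; nlinarith
  have hrt : t ^ 2 + r ^ 2 ≤ 1 := by rw [hr2]; nlinarith
  have hr1 : ‖r • n‖ ≤ 1 := by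
    have := hnrm r n hn1
    have h0 := norm_nonneg (r • n)
    nlinarith [sq_nonneg s]
  have e1 : (s + t) • x = (s • x + r • n) + (t • x + (-r) • n) := by module
  have o1 : ⟪s • x + r • n, t • x + (-r) • n⟫ = 0 := by
    simp only [inner_add_left, inner_add_right, inner_smul_left, inner_smul_right, hxx, hnn, hn2,
      hnx, RCLike.conj_to_real]
    nlinarith
  have o2 : ⟪s • x, r • n⟫ = 0 := by
    rw [inner_smul_left, inner_smul_right, hn2]; simp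
  have o3 : ⟪t • x, (-r) • n⟫ = 0 := by
    rw [inner_smul_left, inner_smul_right, hn2]; simp
  rw [e1, Fe_orth hd hf hc o1 (by rw [hN, hN, neg_sq, hr2]; nlinarith),
    Fe_orth hd hf hc o2 (by rw [hnrm s x hx, hnrm r n hn1]; exact hrs),
    Fe_orth hd hf hc o3 (by rw [hnrm t x hx, hnrm (-r) n hn1, neg_sq]; exact hrt), neg_smul,
    Fe_neg hd hf hc hr1]
  ring

/-- **The functional equation.** -/
theorem linear [FiniteDimensional ℝ E] (hd : finrank ℝ E = 3) {f : E → ℝ} (hf : Tri f)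
    (hc : Continuous f) : ∃ ℓ : E, ∀ v : E, ‖v‖ = 1 → f v = ⟪ℓ, v⟫ := by
  obtain ⟨M, hM⟩ := (isCompact_sphere (0 : E) 1).exists_bound_of_continuousOn hc.continuousOn
  have hM' : ∀ v : E, ‖v‖ = 1 → |f v| ≤ M := fun v hv => hM v (by simpa using hv)
  -- `Fe` on unit vectors
  have hFf : ∀ v : E, ‖v‖ = 1 → Fe hd f v = f v := by
    intro v hv
    obtain ⟨n, hn1, hn2, -⟩ := exists_unit_orth hd v v
    have hs : (√3 / 2) ^ 2 = 3 / 4 := by
      rw [div_pow, Real.sq_sqrt (by norm_num)]; norm_num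
    have hN : ∀ α γ : ℝ, ‖α • v + γ • n‖ ^ 2 = α ^ 2 + γ ^ 2 := by
      intro α γ
      have := norm_unit_comb (x := v) (y := 0) (n := n) (by simp) hn2 (by simp) hn1 α 0 γ
      rw [smul_zero, add_zero, hv] at this
      rw [this]
      ring
    have ha : ‖(1 / 2 : ℝ) • v + (√3 / 2) • n‖ = 1 := norm_one_of_sq (by rw [hN, hs]; norm_num)
    have hb : ‖(1 / 2 : ℝ) • v + (-(√3 / 2)) • n‖ = 1 :=
      norm_one_of_sq (by rw [hN, neg_sq, hs]; norm_num)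
    rw [Fe_pair hd hf hc ha hb (by module) hv.le]
    have h1 := hf v (-((1 / 2 : ℝ) • v + (√3 / 2) • n)) (-((1 / 2 : ℝ) • v + (-(√3 / 2)) • n)) hv
      (by rwa [norm_neg]) (by rwa [norm_neg]) (by module)
    rw [odd hd hf ha, odd hd hf hb] at h1
    linarith
  have hbound : ∀ x : E, ‖x‖ ≤ 1 → |Fe hd f x| ≤ 2 * M := by
    intro x hx
    obtain ⟨n, hn1, hn2, -⟩ := exists_unit_orth hd x x
    set ρ : ℝ := √(1 - ‖x‖ ^ 2 / 4) with hρ
    have hρ2 : ρ ^ 2 = 1 - ‖x‖ ^ 2 / 4 := Real.sq_sqrt (by nlinarith [norm_nonneg x])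
    have h1 : ∀ γ : ℝ, γ ^ 2 = ρ ^ 2 → ‖(1 / 2 : ℝ) • x + γ • n‖ = 1 := by
      intro γ hγ
      apply norm_one_of_sq
      have := norm_unit_comb (x := x) (y := 0) (n := n) (by simp) hn2 (by simp) hn1 (1 / 2) 0 γ
      rw [smul_zero, add_zero] at this
      rw [this, hγ, hρ2]
      ring
    rw [Fe_eq hd hf hc hx hn1 hn2, ← hρ]
    have h2 := hM' _ (h1 ρ rfl)
    have h3 := hM' _ (h1 (-ρ) (by ring))
    exact (abs_add_le _ _).trans (by linarith)
  have hhom0 : ∀ x : E, ‖x‖ = 1 → ∀ s : ℝ, 0 ≤ s → s ≤ 1 → Fe hd f (s • x) = s * Fe hd f x := by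
    intro x hx s hs0 hs1
    have h1 := homog (φ := fun s => Fe hd f (s • x)) (B := 2 * M)
      (fun s t hs ht hst => Fe_ray hd hf hc hx hs ht hst)
      (fun s hs0 hs1 => hbound _ (by
        rw [norm_smul, hx, mul_one, Real.norm_eq_abs, abs_of_nonneg hs0]; exact hs1)) hs0 hs1
    simpa using h1
  have hhom : ∀ x : E, ‖x‖ = 1 → ∀ s : ℝ, |s| ≤ 1 → Fe hd f (s • x) = s * Fe hd f x := by
    intro x hx s hs
    rcases le_total 0 s with h0 | h0
    · exact hhom0 x hx s h0 (by rwa [abs_of_nonneg h0] at hs)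
    · have h1 := hhom0 x hx (-s) (by linarith) (by rwa [abs_of_nonpos h0] at hs)
      have h2 : ‖s • x‖ ≤ 1 := by rw [norm_smul, hx, mul_one]; exact hs
      rw [neg_smul, Fe_neg hd hf hc h2] at h1
      linarith
  let b : OrthonormalBasis (Fin 3) ℝ E := (stdOrthonormalBasis ℝ E).reindex (finCongr hd)
  have hb1 : ∀ i, ‖b i‖ = 1 := fun i => b.orthonormal.1 i
  have hbo : ∀ i j, i ≠ j → ⟪b i, b j⟫ = 0 := fun i j hij => b.orthonormal.2 hij
  refine ⟨∑ i, f (b i) • b i, fun v hv => ?_⟩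
  have hsum := b.sum_repr' v
  rw [Fin.sum_univ_three] at hsum
  set x := ⟪b 0, v⟫ with hx
  set y := ⟪b 1, v⟫ with hy
  set z := ⟪b 2, v⟫ with hz
  have hfr : Fr (b 0) (b 1) (b 2) := ⟨hb1 0, hb1 1, hb1 2, hbo 0 1 (by decide), hbo 0 2 (by decide),
    hbo 1 2 (by decide)⟩
  have hN := hfr.normsq x y z
  rw [hsum, hv, one_pow] at hN
  have hN2 := hfr.normsq x y 0
  rw [zero_smul, add_zero] at hN2
  have hx1 : |x| ≤ 1 := abs_le_one_iff_mul_self_le_one.mpr (by nlinarith [sq_nonneg y, sq_nonneg z])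
  have hy1 : |y| ≤ 1 := abs_le_one_iff_mul_self_le_one.mpr (by nlinarith [sq_nonneg x, sq_nonneg z])
  have hz1 : |z| ≤ 1 := abs_le_one_iff_mul_self_le_one.mpr (by nlinarith [sq_nonneg x, sq_nonneg y])
  have hnrm : ∀ (α : ℝ) (i : Fin 3), ‖α • b i‖ ^ 2 = α ^ 2 := by
    intro α i
    rw [norm_smul, hb1, mul_one, Real.norm_eq_abs, sq_abs]
  have e1 : Fe hd f v = Fe hd f (x • b 0 + y • b 1) + Fe hd f (z • b 2) := by
    rw [← Fe_orth hd hf hc, hsum]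
    · rw [inner_add_left]
      simp only [inner_smul_left, inner_smul_right, hbo 0 2 (by decide), hbo 1 2 (by decide)]
      simp
    · rw [hN2, hnrm]
      linarith
  have e2 : Fe hd f (x • b 0 + y • b 1) = Fe hd f (x • b 0) + Fe hd f (y • b 1) := by
    rw [← Fe_orth hd hf hc]
    · simp only [inner_smul_left, inner_smul_right, hbo 0 1 (by decide)]
      simp
    · rw [hnrm, hnrm]
      nlinarith [sq_nonneg z]
  rw [← hFf v hv, e1, e2, hhom _ (hb1 0) x hx1, hhom _ (hb1 1) y hy1, hhom _ (hb1 2) z hz1,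
    hFf _ (hb1 0), hFf _ (hb1 1), hFf _ (hb1 2), Fin.sum_univ_three, inner_add_left, inner_add_left,
    inner_smul_left, inner_smul_left, inner_smul_left]
  simp only [RCLike.conj_to_real]
  rw [← hx, ← hy, ← hz]
  ring

end Pool.Agent.N555.Rotor
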