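import Pool.Agent.N555.Rotor.FE2

/-!
# Rotors in a regular triangular prism: the geometry
-/

set_option autoImplicit false

namespace Pool.Agent.N555.Rotor

open Real Module
open scoped RealInnerProductSpace

section general

variable {E : Type*} [NormedAddCommGroup E] [InnerProductSpace ℝ E]

/-- the orthonormal basis given by a frame -/
theorem exists_basis [FiniteDimensional ℝ E] (hd : finrank ℝ E = 3) {p q n : E} (h : Fr p q n) :
    ∃ b : OrthonormalBasis (Fin 3) ℝ E, b 0 = p ∧ b 1 = q ∧ b 2 = n := by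
  obtain ⟨hp1, hq1, hn1, hpq, hpn, hqn⟩ := h
  have hqp : ⟪q, p⟫ = 0 := by rw [real_inner_comm]; exact hpq
  have hnp : ⟪n, p⟫ = 0 := by rw [real_inner_comm]; exact hpn
  have hnq : ⟪n, q⟫ = 0 := by rw [real_inner_comm]; exact hqn
  have hon : Orthonormal ℝ ![p, q, n] := by
    constructor
    · intro i
      fin_cases i
      · exact hp1
      · exact hq1
      · exact hn1
    · intro i j hij
      fin_cases i <;> fin_cases j <;> first | exact absurd rfl hij | assumption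
  have hspan : ⊤ ≤ Submodule.span ℝ (Set.range ![p, q, n]) := by
    rw [hon.linearIndependent.span_eq_top_of_card_eq_finrank (by rw [Fintype.card_fin, hd])]
  refine ⟨OrthonormalBasis.mk hon hspan, ?_, ?_, ?_⟩ <;> simp

/-- rotations act transitively on the frames, as far as the first two vectors are concerned -/
theorem exists_rot [FiniteDimensional ℝ E] (hd : finrank ℝ E = 3) {p q n p' q' n' : E}
    (h : Fr p q n) (h' : Fr p' q' n') : ∃ ρ : E ≃ₗᵢ[ℝ] E,
      LinearMap.det (ρ.toLinearEquiv : E →ₗ[ℝ] E) = 1 ∧ ρ p' = p ∧ ρ q' = q := by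
  obtain ⟨b, hb0, hb1, hb2⟩ := exists_basis hd h
  obtain ⟨b', hb0', hb1', hb2'⟩ := exists_basis hd h'
  let ρ : E ≃ₗᵢ[ℝ] E := b'.equiv b (Equiv.refl _)
  have hρ : ∀ i, ρ (b' i) = b i := fun i => by
    simp only [ρ, OrthonormalBasis.equiv_apply_basis, Equiv.refl_apply]
  have hdet : LinearMap.det (ρ.toLinearEquiv : E →ₗ[ℝ] E) = 1 ∨
      LinearMap.det (ρ.toLinearEquiv : E →ₗ[ℝ] E) = -1 := by
    have h1 := b'.toBasis.det_comp (ρ.toLinearEquiv : E →ₗ[ℝ] E) b'.toBasis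
    rw [Basis.det_self, mul_one] at h1
    have h2 : (⇑(ρ.toLinearEquiv : E →ₗ[ℝ] E) ∘ ⇑b'.toBasis) = b := by
      funext i
      simp only [Function.comp_apply, OrthonormalBasis.coe_toBasis]
      exact hρ i
    rw [h2] at h1
    rw [← h1]
    exact b'.det_to_matrix_orthonormalBasis_real b
  rcases hdet with hdet | hdet
  · exact ⟨ρ, hdet, by rw [← hb0', hρ, hb0], by rw [← hb1', hρ, hb1]⟩
  · let W : Submodule ℝ E := (Submodule.span ℝ {n'})ᗮ
    have hW : finrank ℝ Wᗮ = 1 := by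
      rw [Submodule.orthogonal_orthogonal]
      exact finrank_span_singleton (by
        intro h0
        have := h'.n1
        rw [h0, norm_zero] at this
        norm_num at this)
    have hp : p' ∈ W := by
      rw [Submodule.mem_orthogonal_singleton_iff_inner_left]
      exact h'.pn
    have hq : q' ∈ W := by
      rw [Submodule.mem_orthogonal_singleton_iff_inner_left]
      exact h'.qn
    refine ⟨W.reflection.trans ρ, ?_, ?_, ?_⟩
    · have e : ((W.reflection.trans ρ).toLinearEquiv : E →ₗ[ℝ] E) =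
          (ρ.toLinearEquiv : E →ₗ[ℝ] E) ∘ₗ (W.reflection.toLinearEquiv : E →ₗ[ℝ] E) := by
        ext x; rfl
      rw [e, LinearMap.det_comp, hdet, Submodule.det_reflection, hW]
      norm_num
    · show ρ (W.reflection p') = p
      rw [Submodule.reflection_mem_subspace_eq_self hp, ← hb0', hρ, hb0]
    · show ρ (W.reflection q') = q
      rw [Submodule.reflection_mem_subspace_eq_self hq, ← hb1', hρ, hb1]

/-- support function -/
noncomputable def supp (K : Set E) (w : E) : ℝ := sSup ((fun x => ⟪x, w⟫) '' K)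

theorem supp_le {K : Set E} (hK : IsCompact K) (w : E) {x : E} (hx : x ∈ K) :
    ⟪x, w⟫ ≤ supp K w := by
  have hc : Continuous fun x : E => ⟪x, w⟫ := by fun_prop
  exact le_csSup (hK.image hc).bddAbove ⟨x, hx, rfl⟩

theorem supp_eq {K : Set E} (hK : IsCompact K) (w : E) {x : E} (hx : x ∈ K) {c : ℝ}
    (h : ∀ y ∈ K, ⟪y, w⟫ ≤ c) (hxc : ⟪x, w⟫ = c) : supp K w = c := by
  apply le_antisymm
  · apply csSup_le (Set.Nonempty.image _ ⟨x, hx⟩)
    rintro _ ⟨y, hy, rfl⟩
    exact h y hy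
  · rw [← hxc]
    exact supp_le hK w hx

theorem supp_cont {K : Set E} (hK : IsCompact K) (hne : K.Nonempty) : Continuous (supp K) := by
  obtain ⟨R, hR⟩ := hK.isBounded.exists_norm_le
  have hR0 : 0 ≤ R := by
    obtain ⟨x, hx⟩ := hne
    exact (norm_nonneg x).trans (hR x hx)
  have key : ∀ w w' : E, supp K w ≤ supp K w' + R * ‖w - w'‖ := by
    intro w w'
    apply csSup_le (hne.image _)
    rintro _ ⟨x, hx, rfl⟩
    have h1 : ⟪x, w⟫ = ⟪x, w'⟫ + ⟪x, w - w'⟫ := by rw [inner_sub_right]; ring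
    have h2 : ⟪x, w - w'⟫ ≤ R * ‖w - w'‖ :=
      (real_inner_le_norm _ _).trans (mul_le_mul_of_nonneg_right (hR x hx) (norm_nonneg _))
    have h3 := supp_le hK w' hx
    show ⟪x, w⟫ ≤ _
    linarith
  have hl : LipschitzWith ⟨R, hR0⟩ (supp K) := by
    apply LipschitzWith.of_dist_le_mul
    intro w w'
    rw [Real.dist_eq, dist_eq_norm, abs_le]
    have h1 := key w w'
    have h2 := key w' w
    rw [norm_sub_rev w' w] at h2
    constructor
    · show -(R * ‖w - w'‖) ≤ _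
      linarith
    · show _ ≤ R * ‖w - w'‖
      linarith
  exact hl.continuous

/-- a compact convex set with the support function of a ball is this ball -/
theorem ball_of_supp {K : Set E} (hK : IsCompact K) (hc : Convex ℝ K) (hne : K.Nonempty)
    [CompleteSpace E] {r : ℝ} (hr : 0 ≤ r) {ℓ : E}
    (h : ∀ v : E, ‖v‖ = 1 → supp K v = r + ⟪ℓ, v⟫) :
    K = Metric.closedBall ℓ r := by
  apply Set.eq_of_subset_of_subset
  · intro x hx
    rw [mem_closedBall_iff_norm]
    by_cases hxl : x = ℓ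
    · rw [hxl, sub_self, norm_zero]
      exact hr
    · have hpos : 0 < ‖x - ℓ‖ := norm_pos_iff.mpr (sub_ne_zero.mpr hxl)
      set v : E := ‖x - ℓ‖⁻¹ • (x - ℓ) with hv
      have hv1 : ‖v‖ = 1 := by
        rw [hv, norm_smul, norm_inv, norm_norm, inv_mul_cancel₀ hpos.ne']
      have h1 := supp_le hK v hx
      rw [h v hv1] at h1
      have h2 : ⟪x - ℓ, v⟫ = ‖x - ℓ‖ := by
        rw [hv, inner_smul_right, real_inner_self_eq_norm_sq]
        field_simp
      rw [inner_sub_left] at h2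
      linarith
  · intro x hx
    by_contra hxK
    obtain ⟨φ, u, hu1, hu2⟩ := geometric_hahn_banach_closed_point hc hK.isClosed hxK
    set w : E := (InnerProductSpace.toDual ℝ E).symm φ with hw
    have hφ : ∀ y, φ y = ⟪y, w⟫ := by
      intro y
      rw [hw, real_inner_comm, InnerProductSpace.toDual_symm_apply]
    have hw0 : w ≠ 0 := by
      intro h0
      obtain ⟨a, ha⟩ := hne
      have h1 := hu1 a ha
      rw [hφ, h0, inner_zero_right] at h1
      rw [hφ, h0, inner_zero_right] at hu2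
      linarith
    have hwp : 0 < ‖w‖ := norm_pos_iff.mpr hw0
    set v : E := ‖w‖⁻¹ • w with hv
    have hv1 : ‖v‖ = 1 := by
      rw [hv, norm_smul, norm_inv, norm_norm, inv_mul_cancel₀ hwp.ne']
    have h1 : supp K v ≤ ‖w‖⁻¹ * u := by
      apply csSup_le (hne.image _)
      rintro _ ⟨a, ha, rfl⟩
      show ⟪a, v⟫ ≤ _
      rw [hv, inner_smul_right]
      have h2 := hu1 a ha
      rw [hφ] at h2
      exact mul_le_mul_of_nonneg_left h2.le (by positivity)
    have h3 : ‖w‖⁻¹ * u < ⟪x, v⟫ := by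
      rw [hv, inner_smul_right]
      rw [hφ] at hu2
      exact mul_lt_mul_of_pos_left hu2 (by positivity)
    rw [h v hv1] at h1
    rw [mem_closedBall_iff_norm] at hx
    have h4 : ⟪x - ℓ, v⟫ ≤ ‖x - ℓ‖ := by
      have := real_inner_le_norm (x - ℓ) v
      rwa [hv1, mul_one] at this
    rw [inner_sub_left] at h4
    linarith

end general

/-- three-dimensional Euclidean space -/
abbrev E3 : Type := EuclideanSpace ℝ (Fin 3)

/-- the vertical unit vector -/
noncomputable def e3 : E3 := EuclideanSpace.single 2 1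

theorem inner_e3 (x : E3) : ⟪x, e3⟫ = x 2 := by
  simp [e3, EuclideanSpace.inner_single_right]

theorem norm_e3 : ‖e3‖ = 1 := by simp [e3]

theorem finrank_E3 : finrank ℝ E3 = 3 := by simp

/-- coordinates adapted to an equilateral triangle with inradius `r` -/
theorem coords {A B C : E3} (hA : A 2 = 0) (hB : B 2 = 0) (hC : C 2 = 0) {s : ℝ} (hs : 0 < s)
    (hAB : dist A B = s) (hBC : dist B C = s) (hCA : dist C A = s) {r : ℝ}
    (hr : r = s / (2 * √3)) :
    ∃ g p q : E3, Fr p q e3 ∧ g 2 = 0 ∧ A = g + (-2 * r) • p ∧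
      B = g + r • p + (-(√3 * r)) • q ∧ C = g + r • p + (√3 * r) • q := by
  have h3 : (0 : ℝ) < √3 := by positivity
  have h33 : √3 ^ 2 = 3 := Real.sq_sqrt (by norm_num)
  have hr0 : 0 < r := by rw [hr]; positivity
  have hsr : s = 2 * √3 * r := by rw [hr]; field_simp
  have hs2 : s ^ 2 = 12 * r ^ 2 := by rw [hsr]; nlinarith
  obtain ⟨x, hx⟩ : ∃ x : E3, x = B - A := ⟨_, rfl⟩
  obtain ⟨y, hy⟩ : ∃ y : E3, y = C - A := ⟨_, rfl⟩
  have hxx : ‖x‖ ^ 2 = s ^ 2 := by rw [hx, ← dist_eq_norm, dist_comm, hAB]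
  have hyy : ‖y‖ ^ 2 = s ^ 2 := by rw [hy, ← dist_eq_norm, hCA]
  have hyx : ‖y - x‖ ^ 2 = s ^ 2 := by
    have : y - x = C - B := by rw [hx, hy]; abel
    rw [this, ← dist_eq_norm, dist_comm, hBC]
  have hxy : ⟪y, x⟫ = s ^ 2 / 2 := by
    have := norm_sub_sq_real y x
    rw [hyx, hyy, hxx] at this
    linarith
  have hxy' : ⟪x, y⟫ = s ^ 2 / 2 := by rw [real_inner_comm]; exact hxy
  have ixx : ⟪x, x⟫ = s ^ 2 := by rw [real_inner_self_eq_norm_sq, hxx]
  have iyy : ⟪y, y⟫ = s ^ 2 := by rw [real_inner_self_eq_norm_sq, hyy]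
  obtain ⟨p, hp⟩ : ∃ p : E3, p = (6 * r)⁻¹ • (x + y) := ⟨_, rfl⟩
  obtain ⟨q, hq⟩ : ∃ q : E3, q = s⁻¹ • (y - x) := ⟨_, rfl⟩
  have e1 : (6 * r) • p = x + y := by
    rw [hp, smul_smul, mul_inv_cancel₀ (by positivity), one_smul]
  have e2 : s • q = y - x := by
    rw [hq, smul_smul, mul_inv_cancel₀ hs.ne', one_smul]
  refine ⟨(1 / 3 : ℝ) • (A + B + C), p, q, ⟨?_, ?_, norm_e3, ?_, ?_, ?_⟩, ?_, ?_, ?_, ?_⟩
  · apply norm_one_of_sq
    rw [hp, norm_smul, mul_pow, norm_add_sq_real, hxx, hyy, hxy', Real.norm_eq_abs, sq_abs, hs2]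
    field_simp
    ring
  · apply norm_one_of_sq
    rw [hq, norm_smul, mul_pow, hyx, Real.norm_eq_abs, sq_abs]
    field_simp
  · rw [hp, hq, inner_smul_left, inner_smul_right, inner_add_left, inner_sub_right,
      inner_sub_right, hxy, hxy', ixx, iyy]
    ring
  · rw [inner_e3, hp]
    simp [hx, hy, hA, hB, hC]
  · rw [inner_e3, hq]
    simp [hx, hy, hB, hC]
  · simp [hA, hB, hC]
  · have e : (-2 * r) • p = (-1 / 3 : ℝ) • ((6 * r) • p) := by module
    rw [e, e1, hx, hy]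
    module
  · have e : r • p = (1 / 6 : ℝ) • ((6 * r) • p) := by module
    have e' : (-(√3 * r)) • q = (-1 / 2 : ℝ) • (s • q) := by
      rw [smul_smul]
      congr 1
      rw [hsr]
      ring
    rw [e, e', e1, e2, hx, hy]
    module
  · have e : r • p = (1 / 6 : ℝ) • ((6 * r) • p) := by module
    have e' : (√3 * r) • q = (1 / 2 : ℝ) • (s • q) := by
      rw [smul_smul]
      congr 1
      rw [hsr]
      ring
    rw [e, e', e1, e2, hx, hy]
    module

/-- the cylinder over a set -/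
def cyl (S : Set E3) : Set E3 := {x | ∃ y ∈ S, ∃ z : ℝ, x = y + z • e3}

/-- `K` can be placed in the prism in every orientation, touching all faces -/
def IsRotor (A B C : E3) (K : Set E3) : Prop :=
  ∀ ρ : E3 ≃ₗᵢ[ℝ] E3, LinearMap.det (ρ.toLinearEquiv : E3 →ₗ[ℝ] E3) = 1 → ∃ t : E3,
    (∀ x ∈ K, ρ x + t ∈ cyl (convexHull ℝ {A, B, C})) ∧
    (∃ x ∈ K, ρ x + t ∈ cyl (segment ℝ A B)) ∧
    (∃ x ∈ K, ρ x + t ∈ cyl (segment ℝ B C)) ∧
    (∃ x ∈ K, ρ x + t ∈ cyl (segment ℝ C A))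

section prism

/-- the outer normals of the faces (the triple is `p`, `-p/2 + √3/2 q`, `-p/2 - √3/2 q`) -/
theorem triple_unit {p q n : E3} (h : Fr p q n) :
    ‖(-1 / 2 : ℝ) • p + (√3 / 2) • q‖ = 1 ∧ ‖(-1 / 2 : ℝ) • p + (-(√3 / 2)) • q‖ = 1 := by
  have hs : (√3 / 2) ^ 2 = 3 / 4 := by
    rw [div_pow, Real.sq_sqrt (by norm_num)]; norm_num
  have e : ∀ γ : ℝ, γ ^ 2 = 3 / 4 → ‖(-1 / 2 : ℝ) • p + γ • q‖ = 1 := by
    intro γ hγ
    have := h.unit (α := -1 / 2) (β := γ) (γ := 0) (by rw [hγ]; norm_num)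
    rwa [zero_smul, add_zero] at this
  exact ⟨e _ hs, e _ (by rw [neg_sq, hs])⟩

variable {g p q : E3} {r : ℝ}

theorem mem_hull3 {A B C y : E3} : y ∈ convexHull ℝ {A, B, C} ↔
    ∃ a b c : ℝ, 0 ≤ a ∧ 0 ≤ b ∧ 0 ≤ c ∧ a + b + c = 1 ∧ y = a • A + b • B + c • C := by
  constructor
  · intro hy
    let S : Set E3 := {y | ∃ a b c : ℝ, 0 ≤ a ∧ 0 ≤ b ∧ 0 ≤ c ∧ a + b + c = 1 ∧
      y = a • A + b • B + c • C}
    have hS : Convex ℝ S := by
      rintro x ⟨a, b, c, ha, hb, hc, h1, rfl⟩ y ⟨a', b', c', ha', hb', hc', h1', rfl⟩ u v hu hv huv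
      refine ⟨u * a + v * a', u * b + v * b', u * c + v * c', by positivity, by positivity,
        by positivity, ?_, by module⟩
      have : u * a + v * a' + (u * b + v * b') + (u * c + v * c') =
          u * (a + b + c) + v * (a' + b' + c') := by ring
      rw [this, h1, h1', mul_one, mul_one, huv]
    refine convexHull_min ?_ hS hy
    rintro z (rfl | rfl | rfl)
    · exact ⟨1, 0, 0, by norm_num, le_rfl, le_rfl, by norm_num, by module⟩
    · exact ⟨0, 1, 0, le_rfl, by norm_num, le_rfl, by norm_num, by module⟩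
    · exact ⟨0, 0, 1, le_rfl, le_rfl, by norm_num, by norm_num, by module⟩
  · rintro ⟨a, b, c, ha, hb, hc, h1, rfl⟩
    have hA : A ∈ convexHull ℝ {A, B, C} := subset_convexHull ℝ _ (by simp)
    have hB : B ∈ convexHull ℝ {A, B, C} := subset_convexHull ℝ _ (by simp)
    have hC : C ∈ convexHull ℝ {A, B, C} := subset_convexHull ℝ _ (by simp)
    have hconv := convex_convexHull ℝ ({A, B, C} : Set E3)
    have := hconv.sum_mem (t := Finset.univ) (w := ![a, b, c]) (z := ![A, B, C])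
      (by intro i _; fin_cases i <;> simp [ha, hb, hc])
      (by rw [Fin.sum_univ_three]; simpa using h1)
      (by intro i _; fin_cases i <;> simp [hA, hB, hC])
    rw [Fin.sum_univ_three] at this
    simpa using this

/-- inner products of a point in adapted coordinates -/
theorem inner_comb (h : Fr p q e3) {a b c z : ℝ} (h1 : a + b + c = 1) {A B C : E3}
    (hA : A = g + (-2 * r) • p) (hB : B = g + r • p + (-(√3 * r)) • q)
    (hC : C = g + r • p + (√3 * r) • q) {x : E3}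
    (hx : x = a • A + b • B + c • C + z • e3) :
    ⟪x - g, p⟫ = r * (1 - 3 * a) ∧
    ⟪x - g, (-1 / 2 : ℝ) • p + (√3 / 2) • q⟫ = r * (1 - 3 * b) ∧
    ⟪x - g, (-1 / 2 : ℝ) • p + (-(√3 / 2)) • q⟫ = r * (1 - 3 * c) := by
  obtain ⟨hp, hq, hn, hpq, hpn, hqn⟩ := h
  have hqp : ⟪q, p⟫ = 0 := by rw [real_inner_comm]; exact hpq
  have hnp : ⟪e3, p⟫ = 0 := by rw [real_inner_comm]; exact hpn
  have hnq : ⟪e3, q⟫ = 0 := by rw [real_inner_comm]; exact hqn
  have hpp : ⟪p, p⟫ = 1 := by rw [real_inner_self_eq_norm_sq, hp]; norm_num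
  have hqq : ⟪q, q⟫ = 1 := by rw [real_inner_self_eq_norm_sq, hq]; norm_num
  have h3 : √3 * √3 = 3 := Real.mul_self_sqrt (by norm_num)
  have ha : a = 1 - b - c := by linarith
  have e : x - g = (r * (1 - 3 * a)) • p + (√3 * r * (c - b)) • q + z • e3 := by
    rw [hx, hA, hB, hC, ha]
    module
  rw [e]
  simp only [inner_add_left, inner_add_right, inner_smul_left, inner_smul_right, hpq, hqp, hnp,
    hnq, hpp, hqq, RCLike.conj_to_real]
  refine ⟨by ring, ?_, ?_⟩
  · trans r * (1 - 3 * a) * (-1 / 2) + (√3 * √3) * r * (c - b) / 2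
    · ring
    · rw [h3, ha]
      ring
  · trans r * (1 - 3 * a) * (-1 / 2) - (√3 * √3) * r * (c - b) / 2
    · ring
    · rw [h3, ha]
      ring

/-- every point has adapted coordinates -/
theorem exists_comb (h : Fr p q e3) (hr : 0 < r) {A B C : E3}
    (hA : A = g + (-2 * r) • p) (hB : B = g + r • p + (-(√3 * r)) • q)
    (hC : C = g + r • p + (√3 * r) • q) (x : E3) :
    ∃ a b c z : ℝ, a + b + c = 1 ∧ x = a • A + b • B + c • C + z • e3 := by
  obtain ⟨bs, hb0, hb1, hb2⟩ := exists_basis finrank_E3 h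
  have hsum := bs.sum_repr' (x - g)
  rw [Fin.sum_univ_three, hb0, hb1, hb2] at hsum
  set X := ⟪p, x - g⟫ with hX
  set Y := ⟪q, x - g⟫ with hY
  set Z := ⟪e3, x - g⟫ with hZ
  have h3 : √3 * √3 = 3 := Real.mul_self_sqrt (by norm_num)
  have h30 : √3 ≠ 0 := by positivity
  have hx : x = g + X • p + Y • q + Z • e3 := by
    have : x = g + (x - g) := by abel
    rw [this, ← hsum]
    abel
  refine ⟨(1 - X / r) / 3, (1 + X / (2 * r) - √3 * Y / (2 * r)) / 3,
    (1 + X / (2 * r) + √3 * Y / (2 * r)) / 3, Z, ?_, ?_⟩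
  · field_simp
    ring
  · have hgc : (1 - X / r) / 3 + (1 + X / (2 * r) - √3 * Y / (2 * r)) / 3 +
        (1 + X / (2 * r) + √3 * Y / (2 * r)) / 3 = 1 := by
      field_simp
      ring
    have hpc : (1 - X / r) / 3 * (-2 * r) + (1 + X / (2 * r) - √3 * Y / (2 * r)) / 3 * r +
        (1 + X / (2 * r) + √3 * Y / (2 * r)) / 3 * r = X := by
      field_simp
      ring
    have hqc : (1 + X / (2 * r) - √3 * Y / (2 * r)) / 3 * (-(√3 * r)) +
        (1 + X / (2 * r) + √3 * Y / (2 * r)) / 3 * (√3 * r) = Y := by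
      have : (1 + X / (2 * r) - √3 * Y / (2 * r)) / 3 * (-(√3 * r)) +
        (1 + X / (2 * r) + √3 * Y / (2 * r)) / 3 * (√3 * r) = (√3 * √3) * Y / 3 := by
        field_simp
        ring
      rw [this, h3]
      ring
    rw [hA, hB, hC, hx]
    calc g + X • p + Y • q + Z • e3 = ((1 - X / r) / 3 + (1 + X / (2 * r) - √3 * Y / (2 * r)) / 3 +
        (1 + X / (2 * r) + √3 * Y / (2 * r)) / 3) • g +
        ((1 - X / r) / 3 * (-2 * r) + (1 + X / (2 * r) - √3 * Y / (2 * r)) / 3 * r +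
        (1 + X / (2 * r) + √3 * Y / (2 * r)) / 3 * r) • p +
        ((1 + X / (2 * r) - √3 * Y / (2 * r)) / 3 * (-(√3 * r)) +
        (1 + X / (2 * r) + √3 * Y / (2 * r)) / 3 * (√3 * r)) • q + Z • e3 := by
          rw [hgc, hpc, hqc, one_smul]
      _ = _ := by module

/-- the prism and its faces in adapted coordinates -/
theorem mem_cyl (h : Fr p q e3) (hr : 0 < r) {A B C : E3}
    (hA : A = g + (-2 * r) • p) (hB : B = g + r • p + (-(√3 * r)) • q)
    (hC : C = g + r • p + (√3 * r) • q) (x : E3) :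
    ((x ∈ cyl (convexHull ℝ {A, B, C})) ↔ ⟪x - g, p⟫ ≤ r ∧
      ⟪x - g, (-1 / 2 : ℝ) • p + (√3 / 2) • q⟫ ≤ r ∧
      ⟪x - g, (-1 / 2 : ℝ) • p + (-(√3 / 2)) • q⟫ ≤ r) ∧
    ((x ∈ cyl (segment ℝ A B)) ↔ x ∈ cyl (convexHull ℝ {A, B, C}) ∧
      ⟪x - g, (-1 / 2 : ℝ) • p + (-(√3 / 2)) • q⟫ = r) ∧
    ((x ∈ cyl (segment ℝ B C)) ↔ x ∈ cyl (convexHull ℝ {A, B, C}) ∧ ⟪x - g, p⟫ = r) ∧
    ((x ∈ cyl (segment ℝ C A)) ↔ x ∈ cyl (convexHull ℝ {A, B, C}) ∧
      ⟪x - g, (-1 / 2 : ℝ) • p + (√3 / 2) • q⟫ = r) := by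
  have hle : ∀ a : ℝ, r * (1 - 3 * a) ≤ r → 0 ≤ a := by
    intro a ha
    by_contra hneg
    push Not at hneg
    nlinarith
  have heq : ∀ a : ℝ, r * (1 - 3 * a) = r → a = 0 := by
    intro a ha
    have : r * a = 0 := by linarith
    rcases mul_eq_zero.mp this with h0 | h0
    · exact absurd h0 hr.ne'
    · exact h0
  have hle' : ∀ a : ℝ, 0 ≤ a → r * (1 - 3 * a) ≤ r := by
    intro a ha
    nlinarith
  have hmain : (x ∈ cyl (convexHull ℝ {A, B, C})) ↔ ⟪x - g, p⟫ ≤ r ∧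
      ⟪x - g, (-1 / 2 : ℝ) • p + (√3 / 2) • q⟫ ≤ r ∧
      ⟪x - g, (-1 / 2 : ℝ) • p + (-(√3 / 2)) • q⟫ ≤ r := by
    constructor
    · rintro ⟨y, hy, z, hz⟩
      obtain ⟨a, b, c, ha, hb, hc, h1, rfl⟩ := mem_hull3.mp hy
      obtain ⟨e1, e2, e3'⟩ := inner_comb h h1 hA hB hC hz
      rw [e1, e2, e3']
      exact ⟨hle' a ha, hle' b hb, hle' c hc⟩
    · rintro ⟨k1, k2, k3⟩
      obtain ⟨a, b, c, z, h1, hz⟩ := exists_comb h hr hA hB hC x
      obtain ⟨e1, e2, e3'⟩ := inner_comb h h1 hA hB hC hz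
      rw [e1] at k1
      rw [e2] at k2
      rw [e3'] at k3
      exact ⟨_, mem_hull3.mpr ⟨a, b, c, hle a k1, hle b k2, hle c k3, h1, rfl⟩, z, hz⟩
  refine ⟨hmain, ?_, ?_, ?_⟩
  · constructor
    · rintro ⟨y, ⟨u, v, hu, hv, huv, rfl⟩, z, hz⟩
      have h1 : u + v + 0 = 1 := by linarith
      have hz' : x = u • A + v • B + (0 : ℝ) • C + z • e3 := by rw [hz]; module
      obtain ⟨e1, e2, e3'⟩ := inner_comb h h1 hA hB hC hz'
      refine ⟨hmain.mpr ?_, by rw [e3']; ring⟩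
      rw [e1, e2, e3']
      exact ⟨hle' u hu, hle' v hv, hle' 0 le_rfl⟩
    · rintro ⟨⟨y, hy, z, hz⟩, hk⟩
      obtain ⟨a, b, c, ha, hb, hc, h1, rfl⟩ := mem_hull3.mp hy
      obtain ⟨e1, e2, e3'⟩ := inner_comb h h1 hA hB hC hz
      rw [e3'] at hk
      have h0 := heq c hk
      subst h0
      exact ⟨_, ⟨a, b, ha, hb, by linarith, rfl⟩, z, by rw [hz]; module⟩
  · constructor
    · rintro ⟨y, ⟨u, v, hu, hv, huv, rfl⟩, z, hz⟩
      have h1 : 0 + u + v = 1 := by linarith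
      have hz' : x = (0 : ℝ) • A + u • B + v • C + z • e3 := by rw [hz]; module
      obtain ⟨e1, e2, e3'⟩ := inner_comb h h1 hA hB hC hz'
      refine ⟨hmain.mpr ?_, by rw [e1]; ring⟩
      rw [e1, e2, e3']
      exact ⟨hle' 0 le_rfl, hle' u hu, hle' v hv⟩
    · rintro ⟨⟨y, hy, z, hz⟩, hk⟩
      obtain ⟨a, b, c, ha, hb, hc, h1, rfl⟩ := mem_hull3.mp hy
      obtain ⟨e1, e2, e3'⟩ := inner_comb h h1 hA hB hC hz
      rw [e1] at hk
      have h0 := heq a hk
      subst h0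
      exact ⟨_, ⟨b, c, hb, hc, by linarith, rfl⟩, z, by rw [hz]; module⟩
  · constructor
    · rintro ⟨y, ⟨u, v, hu, hv, huv, rfl⟩, z, hz⟩
      have h1 : v + 0 + u = 1 := by linarith
      have hz' : x = v • A + (0 : ℝ) • B + u • C + z • e3 := by rw [hz]; module
      obtain ⟨e1, e2, e3'⟩ := inner_comb h h1 hA hB hC hz'
      refine ⟨hmain.mpr ?_, by rw [e2]; ring⟩
      rw [e1, e2, e3']
      exact ⟨hle' v hv, hle' 0 le_rfl, hle' u hu⟩
    · rintro ⟨⟨y, hy, z, hz⟩, hk⟩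
      obtain ⟨a, b, c, ha, hb, hc, h1, rfl⟩ := mem_hull3.mp hy
      obtain ⟨e1, e2, e3'⟩ := inner_comb h h1 hA hB hC hz
      rw [e2] at hk
      have h0 := heq b hk
      subst h0
      exact ⟨_, ⟨c, a, hc, ha, by linarith, rfl⟩, z, by rw [hz]; module⟩

end prism

/-- **Main theorem**: the rotors in a regular triangular prism are the inscribed balls. -/
theorem main {A B C : E3} (hA : A 2 = 0) (hB : B 2 = 0) (hC : C 2 = 0) {s : ℝ} (hs : 0 < s)
    (hAB : dist A B = s) (hBC : dist B C = s) (hCA : dist C A = s) {K : Set E3}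
    (hK : Convex ℝ K) (hKc : IsCompact K) (hKi : (interior K).Nonempty) :
    IsRotor A B C K ↔ ∃ c : E3, K = Metric.closedBall c (s / (2 * √3)) := by
  obtain ⟨r, hr⟩ : ∃ r : ℝ, r = s / (2 * √3) := ⟨_, rfl⟩
  have hr0 : 0 < r := by rw [hr]; positivity
  obtain ⟨g, p, q, h, -, eA, eB, eC⟩ := coords hA hB hC hs hAB hBC hCA hr
  rw [← hr]
  have hmem := mem_cyl h hr0 eA eB eC
  obtain ⟨hu1, hu2⟩ := triple_unit h
  obtain ⟨n1, hn1⟩ : ∃ n1 : E3, n1 = (-1 / 2 : ℝ) • p + (√3 / 2) • q := ⟨_, rfl⟩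
  obtain ⟨n2, hn2⟩ : ∃ n2 : E3, n2 = (-1 / 2 : ℝ) • p + (-(√3 / 2)) • q := ⟨_, rfl⟩
  rw [← hn1] at hu1
  rw [← hn2] at hu2
  simp only [← hn1, ← hn2] at hmem
  have hsum0 : p + n1 + n2 = 0 := by rw [hn1, hn2]; module
  have hne : K.Nonempty := hKi.mono interior_subset
  constructor
  · intro hrot
    -- the support function
    have hTri : Tri (fun w : E3 => supp K w - r * ‖w‖) := by
      intro a b c ha hb hc habc
      have h3 : (0 : ℝ) < √3 := by positivity
      have h33 : √3 * √3 = 3 := Real.mul_self_sqrt (by norm_num)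
      have haa : ⟪a, a⟫ = 1 := by rw [real_inner_self_eq_norm_sq, ha]; norm_num
      have hbb : ⟪b, b⟫ = 1 := by rw [real_inner_self_eq_norm_sq, hb]; norm_num
      have hcc : ⟪c, c⟫ = 1 := by rw [real_inner_self_eq_norm_sq, hc]; norm_num
      have k1 : ⟪a, a⟫ + ⟪a, b⟫ + ⟪a, c⟫ = 0 := by
        rw [← inner_add_right, ← inner_add_right, habc, inner_zero_right]
      have k2 : ⟪b, a⟫ + ⟪b, b⟫ + ⟪b, c⟫ = 0 := by
        rw [← inner_add_right, ← inner_add_right, habc, inner_zero_right]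
      have k3 : ⟪c, a⟫ + ⟪c, b⟫ + ⟪c, c⟫ = 0 := by
        rw [← inner_add_right, ← inner_add_right, habc, inner_zero_right]
      have hba : ⟪b, a⟫ = ⟪a, b⟫ := real_inner_comm _ _
      have hca : ⟪c, a⟫ = ⟪a, c⟫ := real_inner_comm _ _
      have hcb : ⟪c, b⟫ = ⟪b, c⟫ := real_inner_comm _ _
      rw [hba] at k2
      rw [hca, hcb] at k3
      obtain ⟨q', hq'⟩ : ∃ q' : E3, q' = (√3)⁻¹ • (b - c) := ⟨_, rfl⟩
      have hq'1 : ‖q'‖ = 1 := by
        apply norm_one_of_sq
        rw [hq', norm_smul, mul_pow, norm_sub_sq_real, hb, hc, Real.norm_eq_abs, sq_abs, inv_pow,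
          Real.sq_sqrt (by norm_num)]
        linarith
      have haq : ⟪a, q'⟫ = 0 := by
        rw [hq', inner_smul_right, inner_sub_right]
        have : ⟪a, b⟫ - ⟪a, c⟫ = 0 := by linarith
        rw [this, mul_zero]
      obtain ⟨n', hn'⟩ := exists_frame finrank_E3 ha hq'1 haq
      obtain ⟨ρ, hdet, hρp, hρq⟩ := exists_rot finrank_E3 h hn'
      have hbe : b = (-1 / 2 : ℝ) • a + (√3 / 2) • q' := by
        have e : (√3 / 2) • q' = (1 / 2 : ℝ) • (b - c) := by
          rw [hq', smul_smul]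
          congr 1
          field_simp
        rw [e]
        have : a = -(b + c) := by
          have : a + (b + c) = 0 := by rw [← add_assoc]; exact habc
          exact eq_neg_of_add_eq_zero_left this
        rw [this]
        module
      have hce : c = (-1 / 2 : ℝ) • a + (-(√3 / 2)) • q' := by
        have e : (√3 / 2) • q' = (1 / 2 : ℝ) • (b - c) := by
          rw [hq', smul_smul]
          congr 1
          field_simp
        rw [neg_smul, e]
        have : a = -(b + c) := by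
          have : a + (b + c) = 0 := by rw [← add_assoc]; exact habc
          exact eq_neg_of_add_eq_zero_left this
        rw [this]
        module
      have hρb : ρ b = n1 := by
        rw [hbe, map_add, map_smul, map_smul, hρp, hρq, hn1]
      have hρc : ρ c = n2 := by
        rw [hce, map_add, map_smul, map_smul, hρp, hρq, hn2]
      obtain ⟨t, hall, ⟨x1, hx1, hf1⟩, ⟨x2, hx2, hf2⟩, ⟨x3, hx3, hf3⟩⟩ := hrot ρ hdet
      have key : ∀ (w m : E3), ρ w = m → (∀ x ∈ K, ⟪ρ x + t - g, m⟫ ≤ r) →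
          ∀ x ∈ K, ⟪ρ x + t - g, m⟫ = r → supp K w = r - ⟪t - g, m⟫ := by
        intro w m hw hle x hx hxr
        have e : ∀ y : E3, ⟪ρ y + t - g, m⟫ = ⟪y, w⟫ + ⟪t - g, m⟫ := by
          intro y
          rw [add_sub_assoc, inner_add_left, ← hw, LinearIsometryEquiv.inner_map_map]
        apply supp_eq hKc w hx
        · intro y hy
          have := hle y hy
          rw [e] at this
          linarith
        · rw [e] at hxr
          linarith
      have s1 := key a p hρp (fun x hx => ((hmem _).1.mp (hall x hx)).1) x2 hx2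
        ((hmem _).2.2.1.mp hf2).2
      have s2 := key b n1 hρb (fun x hx => ((hmem _).1.mp (hall x hx)).2.1) x3 hx3
        ((hmem _).2.2.2.mp hf3).2
      have s3 := key c n2 hρc (fun x hx => ((hmem _).1.mp (hall x hx)).2.2) x1 hx1
        ((hmem _).2.1.mp hf1).2
      have s4 : ⟪t - g, p⟫ + ⟪t - g, n1⟫ + ⟪t - g, n2⟫ = 0 := by
        rw [← inner_add_right, ← inner_add_right, hsum0, inner_zero_right]
      show supp K a - r * ‖a‖ + (supp K b - r * ‖b‖) + (supp K c - r * ‖c‖) = 0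
      rw [s1, s2, s3, ha, hb, hc]
      linarith
    have hcont : Continuous (fun w : E3 => supp K w - r * ‖w‖) :=
      (supp_cont hKc hne).sub (continuous_const.mul continuous_norm)
    obtain ⟨ℓ, hℓ⟩ := linear finrank_E3 hTri hcont
    refine ⟨ℓ, ball_of_supp hKc hK hne hr0.le fun v hv => ?_⟩
    have := hℓ v hv
    rw [hv] at this
    linarith
  · rintro ⟨c, rfl⟩ ρ hdet
    refine ⟨g - ρ c, ?_⟩
    have e : ∀ x : E3, ρ x + (g - ρ c) - g = ρ (x - c) := by
      intro x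
      rw [map_sub]
      abel
    have hin : ∀ x ∈ Metric.closedBall c r, ρ x + (g - ρ c) ∈ cyl (convexHull ℝ {A, B, C}) := by
      intro x hx
      rw [mem_closedBall_iff_norm] at hx
      have hb : ∀ m : E3, ‖m‖ = 1 → ⟪ρ (x - c), m⟫ ≤ r := by
        intro m hm
        have := real_inner_le_norm (ρ (x - c)) m
        rw [hm, mul_one, LinearIsometryEquiv.norm_map] at this
        linarith
      rw [(hmem _).1, e]
      exact ⟨hb p h.p1, hb n1 hu1, hb n2 hu2⟩
    have htouch : ∀ m : E3, ‖m‖ = 1 → ∃ x ∈ Metric.closedBall c r,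
        ⟪ρ x + (g - ρ c) - g, m⟫ = r := by
      intro m hm
      refine ⟨c + ρ.symm (r • m), ?_, ?_⟩
      · rw [mem_closedBall_iff_norm, add_sub_cancel_left, LinearIsometryEquiv.norm_map, norm_smul,
          hm, mul_one, Real.norm_eq_abs, abs_of_pos hr0]
      · rw [e, add_sub_cancel_left, LinearIsometryEquiv.apply_symm_apply, inner_smul_left,
          real_inner_self_eq_norm_sq, hm]
        simp
    refine ⟨hin, ?_, ?_, ?_⟩
    · obtain ⟨x, hx, hx'⟩ := htouch n2 hu2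
      exact ⟨x, hx, (hmem _).2.1.mpr ⟨hin x hx, hx'⟩⟩
    · obtain ⟨x, hx, hx'⟩ := htouch p h.p1
      exact ⟨x, hx, (hmem _).2.2.1.mpr ⟨hin x hx, hx'⟩⟩
    · obtain ⟨x, hx, hx'⟩ := htouch n1 hu1
      exact ⟨x, hx, (hmem _).2.2.2.mpr ⟨hin x hx, hx'⟩⟩

end Pool.Agent.N555.Rotor
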